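import Mathlib

/-!
# MP_18a4fa_co: a graph on 14 vertices that is not defeated in 14 attacks

For an explicit graph on 14 vertices with m-eternal domination number at least 4, three guards
placed suitably survive the first 14 attacks.  The proof checks a rank function on the 3-element
configurations (rank = number of attacks survived): from a configuration of rank `t` every attack
has a response of rank at least `t - 1`, and some attack only has responses of rank less than `t`.
-/

namespace Pool.Agent.Results.MP_18a4fa_co.LongGame

open Finset

/-- `Move G C C'`: the guards on `C` can move, each along at most one edge, so as to occupy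
exactly the vertices of `C'`, with at most one guard on each vertex. -/
def Move {V : Type*} [DecidableEq V] (G : SimpleGraph V) (C C' : Finset V) : Prop :=
  ∃ f : V → V, (∀ v ∈ C, f v = v ∨ G.Adj v (f v)) ∧ Set.InjOn f C ∧ C.image f = C'

/-- `AttackerWins G k C`: from the configuration `C` the attacker has a strategy that wins against
every defender response within at most `k` attacks. -/
def AttackerWins {V : Type*} [DecidableEq V] (G : SimpleGraph V) : ℕ → Finset V → Prop
  | 0, _ => False
  | k + 1, C => ∃ a : V, ∀ C', Move G C C' → a ∈ C' → AttackerWins G k C'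

/-- `C` is an m-eternal dominating set: there is a family of configurations containing `C` inside
which the defender can respond to every attack (so he can respond forever). -/
def IsEternal {V : Type*} [DecidableEq V] (G : SimpleGraph V) (C : Finset V) : Prop :=
  ∃ F : Set (Finset V), C ∈ F ∧ ∀ D ∈ F, ∀ a : V, ∃ D' ∈ F, Move G D D' ∧ a ∈ D'

/-- The m-eternal domination number: the least size of an m-eternal dominating set. -/
noncomputable def eternalNumber {V : Type*} [DecidableEq V] (G : SimpleGraph V) : ℕ :=
  sInf {k | ∃ C : Finset V, C.card = k ∧ IsEternal G C}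

/-- `G` is defeated in `k` attacks: from every configuration of at most `γ_m^∞(G) - 1` guards the
attacker can force a win within at most `k` attacks. -/
def DefeatedIn {V : Type*} [DecidableEq V] (G : SimpleGraph V) (k : ℕ) : Prop :=
  ∀ C : Finset V, C.card ≤ eternalNumber G - 1 → AttackerWins G k C

/-! ### The graph and the tables -/

/-- Closed neighbourhoods. -/
def nbl : List (List ℕ) :=
  [[0, 1, 2, 5, 6, 8, 10, 11, 13],
   [0, 1, 2, 10, 11],
   [0, 1, 2, 6, 7, 9, 10, 12],
   [3, 4, 5, 7, 8, 9, 13],
   [3, 4, 5, 10],
   [0, 3, 4, 5, 9, 11, 12, 13],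
   [0, 2, 6, 7, 8, 10],
   [2, 3, 6, 7, 8, 10, 11, 13],
   [0, 3, 6, 7, 8, 10, 12],
   [2, 3, 5, 9, 11, 13],
   [0, 1, 2, 4, 6, 7, 8, 10, 13],
   [0, 1, 5, 7, 9, 11],
   [2, 5, 8, 12, 13],
   [0, 3, 5, 7, 9, 10, 12, 13]]

/-- The closed neighbourhood of `x`. -/
def nb (x : ℕ) : List ℕ := nbl.getD x []

theorem nb_symm : ∀ u v : Fin 14, (v : ℕ) ∈ nb u → (u : ℕ) ∈ nb v := by decide +kernel

theorem nb_self : ∀ u : Fin 14, (u : ℕ) ∈ nb u := by decide +kernel

theorem nb_lt : ∀ u < 14, ∀ v ∈ nb u, v < 14 := by decide +kernel

/-- The graph. -/
def G : SimpleGraph (Fin 14) where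
  Adj u v := u ≠ v ∧ (v : ℕ) ∈ nb u
  symm := ⟨fun u v h => ⟨h.1.symm, nb_symm u v h.2⟩⟩
  loopless := ⟨fun _ h => h.1 rfl⟩

theorem step_iff (u v : Fin 14) : (v = u ∨ G.Adj u v) ↔ (v : ℕ) ∈ nb u := by
  constructor
  · rintro (rfl | h)
    · exact nb_self _
    · exact h.2
  · intro h
    by_cases huv : v = u
    · exact Or.inl huv
    · exact Or.inr ⟨fun e => huv e.symm, h⟩

/-- Table of ranks. -/
def RT : ℕ := 0x800000000000000040160300e00002c0000b0000000000000000000000000000000000600000000000000000000000000000000007000000000001c00000000000000007000000000000000034000000000000000000000100000000000000003000000e768000000000000000000000000000000000000000000000000000000000000020001800000000001000000000000000000000000000000000000000000000000000000000000000000000c000000000e000000000000000000000000000000000000140000000001c00000000000000000000000000000000000028000000080000000000000000000000000000000000000000000000010000003001c0000000000000000000000000000c0000000000000000000000700000000000000001a0000000000e001cd000000380000000000000000000000000000000600000000000000030000000000000000000000000000000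1c00000000100580c0380000b0000002000180000004000000c00700000000000000000000000058400024005800900000181200012000000300000000030000000000000000020000003b1c05a4c1009c90b00000000000400000000000000007000000000001200012000000080000000008000001800000000180000000000b0000000000000000040000000000000000000000000000016100009001600240000000000000000000000024000000000000000000000000000000000000000000000000000b00000000000000000000000000000000000000000000e000000240000000700000000000000000000000000000000000000000000000000000000000000000000000000000030000000000000001812000120000000000900000000000000000000000000000000000000000000000000000000000000000000090000000007738000000000000000000000000000000007380000000000e0000000000000000701c00000000000001c07000000006000000000000000000000000000000000000000070000000c000000000c0000000000000000000000000000000000000000000000000000000000000000000000000000001c6000000000e3380000000000000380000000000000000e0000000000001ce700000000000000300000000000000001c000000000000000000000000000000000000000000000000000680000000000000000200000000000000000000000000000000000000000000000000000000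00000000000000000000001a100000000040b000000000000000000000000000000000000000000000080000000000000000080000000000000001800000000007000000000001c000300000000038000000e001cd00000038ec70169304027242c0000b000000000000000024000000001dce001c6000000000e3380068400000000102c000000000000000000000080000000000000000e000000000e0380e02407710007000e00001038c100000000e07300e730007380000000000000000001c00000000000000000000000000000000000000000000040000000000000000000000000000000000000000000000000000000e00000000000000000000000020000000000000000000000000000000000000000000000000000000700000000e000000000000000000e0000000000003800000000000000000034000000000000000050000000000000060000000000001c00000000000000000000e000000000000000001ce00000000000000e000000000000000000000000e000000000e0380000000000000000000000000000000000000301c0701c00014e00000038000000a001a50000e001c0038000000000000000000000000000001c0000000000000000000c0000000012000120000000000900000001c00000000000000e0000000000000000739c0000000000000080000000380901dc4001c00380000000700000000e000c0701c070000538000000000000000000000000000001400000000000001ce7000000001000000000000000000000000000000000000000000000000200000000020000000000000000000000000000000001c0700000000000000300000000000000000200000000001038c1000000000000000000000000000000038000000a00000000000000050000000000000000000000000000000000000000000c0000039da000000000000000028000000000000070000001800000000180000000000000000000000000000000001c07000000000000007000000000000000018000000381cc039cc001ce000e000000000000380069400038007000e0000000000001ce7000000000000000000000000000000000000000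

/-- Table of attacks. -/
def AT : ℕ := 0x22c2108421090840100420884108442100b2002b62c2b5ad890048100421084242100112c2008421090840048c08401084242100122c2108021090840044108421004283040112c21084200a0c10044b084210840b3180422c8421108580840108c21084318c4010042248421021310800008b0842108424210000000000000000002000321083318c318d601808948d2958c63080840040108004210202242008421090840808900401080042102018c210802108c63080c9084210042631c20324010042002cc7080cb004010800b3188018c8420ccb580632006321083318c300c8018c8420ce730c600100420884108442108000c8420cc630c63000000000000000000830018460ccc60c632100c01084318c4210440108021042110842100c21004331842108300c84201ac60c6311806308cd0084831846030c263040120cc1180c3098c1080c3308300c8420d086006320c0321083318c300c8300c8420ccc60c6002c800ad8b0ad6b625601808948d2958c6320c00611833318318c000000000000000000918002d8c0b18b631692016029569594a96258061405625852a563181852818958c630a4c00ad8c004cb62569601894a4205ad295ad8062d8b32c0b631631816528d6b5806360c60614a36258300d231818948d2960c60004810042108424210202100100420010842100c01084318c4210246000b6302c62d8c0000000000000000002122c000842109084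0808c004010800421021230010802109084084c1004210042831c203300100420020c7080cc00401080063308422c0421108300842108c01084318c40108423004210e7610800044b080210842421020224200842109084110042008410844211692016029569594a90848b000210842421000000000000000000084850800108424210212142008021090840844b080210042b3182112420084200ad290844b080210840b31884214802116b580842108520084324c40108422480210c9310800048c0840108424210202240100420010842100c2100433184211896018501589614a90808c00401080042102121420004210908400000000000000000021214210002109084084cc0840100426618206240100420019290818c00401080066308421484010c6300842108521004625840108422484010c9610800048b08420084242102018c210802108c6320c03210806b18318d63181852818958c630848c00420084242102121420080210908408485084000842421000000000000000000085ac084200042b6242162421080200ad290858b084200840b6308318c842016b5806320c63210806258300c8318c842012960c60004410842100428304203242108401098c711806308cd00848318293002b6300132d89084c1004210042831c2112c20084010acc6084cc0840100426618216b021080010ad890000000000000000002110421084000a0c70844608421004063190642d0b32c0830106318cc3198c018c801c27324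e632407318e00044b084210802830420324010042002cc71180c3098c1004833169601894a4205ad29080cc004010800831c2112420084200ad290818900401080064a42162421080200ad2908441084210002831c000000000000000000804b004010800b3310b42d0b32d0058106318c932529300c801c27624e94a4e0618e00044b084210840b3182032c010042002cc61180c3098c1080c3316b6018b62ccb02d8c080cc00401080063302112c200842102cc60818c00401080066302162c210802102d8c0844608421004063182012c010042002ccc0000000000000000016b62ccb32ccb00106318cc3198c31808030c663186630cc019800108b21084421602108018c8420ccb5806320c03210834218018d631816528d6b580632108b01084420c021084214802116b580842108521004318c02108318c842016b580634190b42ccb020c04190b42d0b32d00581065ad8b32ccb32c004180000000000000000020c63210834210000c8318c8420cc6300600108c21084318c40108018c8420cc630c0320c0321083318c300d831818528d8960c032108c01084318c40108421480210c9310042108521004625840108318c842018960c03318cc3198c018c801cc6324c94a4c032007318cc3198c318080308318c8420d08400030000000000000000008318c8420ce760c000108921084084c42008018c8420ce730c6020c032108333183181231818948d2960c602108c0108439d842008422480210c9310802108921004325842008318c842012960c6009cc9398c901cc638027624e94a4e0618e03198c6198c330066008318c8420cc63006020c632108339d8300000000000000000000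

/-- The rank of the configuration `{x, y, z}`. -/
def rk (x y z : ℕ) : ℕ := (RT >>> (5 * (196 * x + 14 * y + z))) &&& 31

/-- The attack used against the configuration `{x, y, z}`. -/
def atk (x y z : ℕ) : ℕ := (AT >>> (5 * (196 * x + 14 * y + z))) &&& 31

theorem rk_symm : ∀ x < 14, ∀ y < 14, ∀ z < 14, rk x y z = rk y x z ∧ rk x y z = rk x z y := by
  decide +kernel

theorem atk_symm : ∀ x < 14, ∀ y < 14, ∀ z < 14,
    atk x y z = atk y x z ∧ atk x y z = atk x z y ∧ atk x y z < 14 := by
  decide +kernel

/-- The survival check. -/
def chkA : Bool :=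
  (List.range 14).all fun z => (List.range z).all fun y => (List.range y).all fun x =>
    rk x y z == 0 ||
    (List.range 14).all fun a =>
      (nb x).any fun x' => (nb y).any fun y' => !(x' == y') && (nb z).any fun z' =>
        !(x' == z') && !(y' == z') && (a == x' || a == y' || a == z') &&
          Nat.ble (rk x y z) (rk x' y' z' + 1)

/-- The attack check. -/
def chkB : Bool :=
  (List.range 14).all fun x => (List.range 14).all fun y => (List.range 14).all fun z =>
    x == y || x == z || y == z || !((nb x).contains (atk x y z)) ||
      (nb y).all fun y' => (atk x y z == y') || (nb z).all fun z' =>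
        (atk x y z == z') || (y' == z') || Nat.blt (rk (atk x y z) y' z') (rk x y z)

/-- The only dominating pair is `{5, 10}`. -/
theorem pair_check0 : ∀ x < 14, ∀ y < 14, (x == 5 && y == 10 || x == 10 && y == 5 ||
    (List.range 14).any (fun a => !(nb x).contains a && !(nb y).contains a)) = true := by
  decide +kernel

theorem pair_check (x : ℕ) (hx : x < 14) (y : ℕ) (hy : y < 14) :
    (x = 5 ∧ y = 10) ∨ (x = 10 ∧ y = 5) ∨ ∃ a < 14, a ∉ nb x ∧ a ∉ nb y := by
  have h := pair_check0 x hx y hy
  rw [Bool.or_eq_true, Bool.or_eq_true] at h
  rcases h with (h | h) | h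
  · left; simpa using h
  · right; left; simpa using h
  · right; right
    obtain ⟨a, ha, h⟩ := List.any_eq_true.1 h
    refine ⟨a, List.mem_range.1 ha, ?_⟩
    simpa using h

theorem chkA_true : chkA = true := by decide +kernel

theorem chkB_true : chkB = true := by decide +kernel

theorem specA {x y z : ℕ} (hxy : x < y) (hyz : y < z) (hz : z < 14) (h : rk x y z ≠ 0) {a : ℕ}
    (ha : a < 14) : ∃ x' ∈ nb x, ∃ y' ∈ nb y, ∃ z' ∈ nb z, x' ≠ y' ∧ x' ≠ z' ∧ y' ≠ z' ∧
      (a = x' ∨ a = y' ∨ a = z') ∧ rk x y z ≤ rk x' y' z' + 1 := by
  have h0 := chkA_true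
  unfold chkA at h0
  rw [List.all_eq_true] at h0
  have h1 := h0 z (List.mem_range.2 hz)
  rw [List.all_eq_true] at h1
  have h2 := h1 y (List.mem_range.2 hyz)
  rw [List.all_eq_true] at h2
  have h3 := h2 x (List.mem_range.2 hxy)
  rw [Bool.or_eq_true] at h3
  rcases h3 with h3 | h3
  · exact absurd (by simpa using h3) h
  · rw [List.all_eq_true] at h3
    have h4 := h3 a (List.mem_range.2 ha)
    obtain ⟨x', hx', h5⟩ := List.any_eq_true.1 h4
    obtain ⟨y', hy', h6⟩ := List.any_eq_true.1 h5
    rw [Bool.and_eq_true] at h6
    obtain ⟨z', hz', h7⟩ := List.any_eq_true.1 h6.2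
    refine ⟨x', hx', y', hy', z', hz', ?_⟩
    simp only [Bool.and_eq_true, Bool.or_eq_true, Bool.not_eq_true', beq_eq_false_iff_ne,
      beq_iff_eq, Nat.ble_eq] at h6 h7
    tauto

theorem specB {x y z : ℕ} (hx : x < 14) (hy : y < 14) (hz : z < 14) (hxy : x ≠ y) (hxz : x ≠ z)
    (hyz : y ≠ z) (ha : atk x y z ∈ nb x) {y' z' : ℕ} (hy' : y' ∈ nb y) (hz' : z' ∈ nb z)
    (h1 : atk x y z ≠ y') (h2 : atk x y z ≠ z') (h3 : y' ≠ z') :
    rk (atk x y z) y' z' < rk x y z := by
  have h0 := chkB_true
  unfold chkB at h0
  rw [List.all_eq_true] at h0
  have k1 := h0 x (List.mem_range.2 hx)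
  rw [List.all_eq_true] at k1
  have k2 := k1 y (List.mem_range.2 hy)
  rw [List.all_eq_true] at k2
  have k3 := k2 z (List.mem_range.2 hz)
  simp only [Bool.or_eq_true, Bool.not_eq_true', beq_iff_eq, List.contains_eq_mem,
    decide_eq_false_iff_not] at k3
  rcases k3 with (((k3 | k3) | k3) | k3) | k3
  · exact absurd k3 hxy
  · exact absurd k3 hxz
  · exact absurd k3 hyz
  · exact absurd ha k3
  · rw [List.all_eq_true] at k3
    have k4 := k3 y' hy'
    simp only [Bool.or_eq_true, beq_iff_eq] at k4
    rcases k4 with k4 | k4
    · exact absurd k4 h1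
    · rw [List.all_eq_true] at k4
      have k5 := k4 z' hz'
      simp only [Bool.or_eq_true, beq_iff_eq, Nat.blt_eq] at k5
      rcases k5 with (k5 | k5) | k5
      · exact absurd k5 h2
      · exact absurd k5 h3
      · exact k5

/-! ### Survival -/

/-- A symmetric function takes its value on a sorted triple. -/
theorem exists_sorted {x y z : Fin 14} (hxy : x ≠ y) (hxz : x ≠ z) (hyz : y ≠ z) :
    ∃ a b c : Fin 14, a < b ∧ b < c ∧ ({a, b, c} : Finset (Fin 14)) = {x, y, z} ∧
      rk a b c = rk x y z := by
  have S1 := fun x y z : Fin 14 => (rk_symm x x.2 y y.2 z z.2).1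
  have S2 := fun x y z : Fin 14 => (rk_symm x x.2 y y.2 z z.2).2
  rcases lt_or_gt_of_ne hxy with h1 | h1 <;> rcases lt_or_gt_of_ne hxz with h2 | h2 <;>
    rcases lt_or_gt_of_ne hyz with h3 | h3
  · exact ⟨x, y, z, h1, h3, rfl, rfl⟩
  · exact ⟨x, z, y, h2, h3, by ext; simp; tauto, (S2 x y z).symm⟩
  · exact absurd (h1.trans h3) (not_lt.2 h2.le)
  · exact ⟨z, x, y, h2, h1, by ext; simp; tauto, by rw [S1, S2]⟩
  · exact ⟨y, x, z, h1, h2, by ext; simp; tauto, by rw [S1]⟩
  · exact absurd (h2.trans h3) (not_lt.2 h1.le)
  · exact ⟨y, z, x, h3, h2, by ext; simp; tauto, by rw [S2, S1]⟩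
  · exact ⟨z, y, x, h3, h1, by ext; simp; tauto, by rw [S2, S1, S2]⟩

/-- A move of three guards. -/
theorem move_triple {x y z x' y' z' : Fin 14} (hxy : x ≠ y) (hxz : x ≠ z) (hyz : y ≠ z)
    (hx : (x' : ℕ) ∈ nb x) (hy : (y' : ℕ) ∈ nb y) (hz : (z' : ℕ) ∈ nb z)
    (h1 : x' ≠ y') (h2 : x' ≠ z') (h3 : y' ≠ z') :
    Move G {x, y, z} {x', y', z'} := by
  obtain ⟨g, fx, fy, fz⟩ : ∃ g : Fin 14 → Fin 14, g x = x' ∧ g y = y' ∧ g z = z' :=
    ⟨fun v => if v = x then x' else if v = y then y' else z', by simp, by simp [hxy.symm],
      by simp [hxz.symm, hyz.symm]⟩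
  refine ⟨g, ?_, ?_, ?_⟩
  · intro v hv
    simp only [mem_insert, mem_singleton] at hv
    rcases hv with rfl | rfl | rfl
    · rw [fx]; exact (step_iff _ _).2 hx
    · rw [fy]; exact (step_iff _ _).2 hy
    · rw [fz]; exact (step_iff _ _).2 hz
  · intro v hv w hw h
    simp only [coe_insert, coe_singleton, Set.mem_insert_iff, Set.mem_singleton_iff] at hv hw
    rcases hv with rfl | rfl | rfl <;> rcases hw with rfl | rfl | rfl
    · rfl
    · rw [fx, fy] at h; exact absurd h h1
    · rw [fx, fz] at h; exact absurd h h2
    · rw [fx, fy] at h; exact absurd h.symm h1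
    · rfl
    · rw [fy, fz] at h; exact absurd h h3
    · rw [fx, fz] at h; exact absurd h.symm h2
    · rw [fy, fz] at h; exact absurd h.symm h3
    · rfl
  · rw [image_insert, image_insert, image_singleton, fx, fy, fz]

theorem survive : ∀ (t : ℕ) (x y z : Fin 14), x ≠ y → x ≠ z → y ≠ z → t ≤ rk x y z →
    ¬ AttackerWins G t {x, y, z} := by
  intro t
  induction t with
  | zero => intro x y z _ _ _ _ h; exact h
  | succ t ih =>
    intro x y z hxy hxz hyz ht hwin
    obtain ⟨p, q, r, hpq, hqr, hset, hrk⟩ := exists_sorted hxy hxz hyz
    rw [← hset] at hwin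
    obtain ⟨a, ha⟩ := hwin
    obtain ⟨x', hx', y', hy', z', hz', h1, h2, h3, h4, h5⟩ :=
      specA (x := p) (y := q) (z := r) hpq hqr r.2 (by omega) a.2
    have lx := nb_lt p p.2 x' hx'
    have ly := nb_lt q q.2 y' hy'
    have lz := nb_lt r r.2 z' hz'
    refine ih ⟨x', lx⟩ ⟨y', ly⟩ ⟨z', lz⟩ (by simpa using h1) (by simpa using h2)
      (by simpa using h3) (by simp only; omega) (ha _ ?_ ?_)
    · exact move_triple hpq.ne (hpq.trans hqr).ne hqr.ne hx' hy' hz' (by simpa using h1)
        (by simpa using h2) (by simpa using h3)
    · simp only [mem_insert, mem_singleton, Fin.ext_iff]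
      exact h4

/-! ### No eternal configuration with at most three guards -/

theorem no_triple (F : Set (Finset (Fin 14)))
    (hF : ∀ D ∈ F, ∀ a : Fin 14, ∃ D' ∈ F, Move G D D' ∧ a ∈ D') :
    ∀ (t : ℕ) (x y z : Fin 14), x ≠ y → x ≠ z → y ≠ z → rk x y z = t → {x, y, z} ∉ F := by
  intro t
  induction t using Nat.strong_induction_on with
  | _ t ih =>
    intro x y z hxy hxz hyz ht hmem
    have ha := (atk_symm x x.2 y y.2 z z.2).2.2
    obtain ⟨D', hD', ⟨f, hf1, hf2, hf3⟩, haD⟩ := hF _ hmem ⟨atk x y z, ha⟩
    have ex : (f x : ℕ) ∈ nb x := (step_iff _ _).1 (hf1 x (by simp))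
    have ey : (f y : ℕ) ∈ nb y := (step_iff _ _).1 (hf1 y (by simp))
    have ez : (f z : ℕ) ∈ nb z := (step_iff _ _).1 (hf1 z (by simp))
    have nxy : f x ≠ f y := fun h => hxy (hf2 (by simp) (by simp) h)
    have nxz : f x ≠ f z := fun h => hxz (hf2 (by simp) (by simp) h)
    have nyz : f y ≠ f z := fun h => hyz (hf2 (by simp) (by simp) h)
    rw [← hf3, image_insert, image_insert, image_singleton] at hD'
    rw [← hf3, image_insert, image_insert, image_singleton] at haD
    simp only [mem_insert, mem_singleton] at haD
    have vxy : (f x : ℕ) ≠ f y := fun h => nxy (Fin.ext h)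
    have vxz : (f x : ℕ) ≠ f z := fun h => nxz (Fin.ext h)
    have vyz : (f y : ℕ) ≠ f z := fun h => nyz (Fin.ext h)
    have wxy : (x : ℕ) ≠ y := fun h => hxy (Fin.ext h)
    have wxz : (x : ℕ) ≠ z := fun h => hxz (Fin.ext h)
    have wyz : (y : ℕ) ≠ z := fun h => hyz (Fin.ext h)
    rcases haD with h | h | h
    · have h' : atk x y z = (f x : ℕ) := congrArg Fin.val h
      have := specB (x := x) (y := y) (z := z) x.2 y.2 z.2 wxy wxz wyz (by rw [h']; exact ex)
        ey ez (by rw [h']; exact vxy) (by rw [h']; exact vxz) vyz
      rw [h', ht] at this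
      exact ih _ this (f x) (f y) (f z) nxy nxz nyz rfl hD'
    · have h' : atk y x z = (f y : ℕ) := by
        rw [← (atk_symm x x.2 y y.2 z z.2).1]; exact congrArg Fin.val h
      have := specB (x := y) (y := x) (z := z) y.2 x.2 z.2 wxy.symm wyz wxz (by rw [h']; exact ey)
        ex ez (by rw [h']; exact vxy.symm) (by rw [h']; exact vyz) vxz
      rw [h', ← (rk_symm x x.2 y y.2 z z.2).1, ht] at this
      refine ih _ this (f y) (f x) (f z) nxy.symm nyz nxz rfl ?_
      convert hD' using 1
      ext; simp; tauto
    · have h' : atk z x y = (f z : ℕ) := by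
        rw [(atk_symm z z.2 x x.2 y y.2).1, ← (atk_symm x x.2 y y.2 z z.2).2.1]
        exact congrArg Fin.val h
      have := specB (x := z) (y := x) (z := y) z.2 x.2 y.2 wxz.symm wyz.symm wxy
        (by rw [h']; exact ez) ex ey (by rw [h']; exact vxz.symm) (by rw [h']; exact vyz.symm) vxy
      rw [h', (rk_symm z z.2 x x.2 y y.2).1, ← (rk_symm x x.2 y y.2 z z.2).2, ht] at this
      refine ih _ this (f z) (f x) (f y) nxz.symm nyz.symm nxy rfl ?_
      convert hD' using 1
      ext; simp; tauto

theorem no_small (F : Set (Finset (Fin 14)))
    (hF : ∀ D ∈ F, ∀ a : Fin 14, ∃ D' ∈ F, Move G D D' ∧ a ∈ D') (x y : Fin 14)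
    (hxy : ¬ (((x : ℕ) = 5 ∧ (y : ℕ) = 10) ∨ ((x : ℕ) = 10 ∧ (y : ℕ) = 5)))
    (D : Finset (Fin 14)) (hD : D ⊆ {x, y}) : D ∉ F := by
  intro hmem
  obtain ⟨a, ha, h1, h2⟩ : ∃ a < 14, a ∉ nb x ∧ a ∉ nb y := by
    rcases pair_check x x.2 y y.2 with h | h | h
    · exact absurd (Or.inl h) hxy
    · exact absurd (Or.inr h) hxy
    · exact h
  obtain ⟨D', -, ⟨f, hf1, -, hf3⟩, haD⟩ := hF _ hmem ⟨a, ha⟩
  rw [← hf3, mem_image] at haD
  obtain ⟨v, hv, hva⟩ := haD
  have hs := (step_iff _ _).1 (hf1 v hv)
  rw [hva] at hs
  have := hD hv
  simp only [mem_insert, mem_singleton] at this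
  rcases this with rfl | rfl
  · exact h1 hs
  · exact h2 hs

theorem no_pair (F : Set (Finset (Fin 14)))
    (hF : ∀ D ∈ F, ∀ a : Fin 14, ∃ D' ∈ F, Move G D D' ∧ a ∈ D') (x y : Fin 14)
    (_hne : x ≠ y) : {x, y} ∉ F := by
  intro hmem
  by_cases hxy : (((x : ℕ) = 5 ∧ (y : ℕ) = 10) ∨ ((x : ℕ) = 10 ∧ (y : ℕ) = 5))
  · obtain ⟨D', hD', ⟨f, hf1, hf2, hf3⟩, haD⟩ := hF _ hmem 0
    rw [← hf3, image_insert, image_singleton] at hD' haD
    refine no_small F hF (f x) (f y) ?_ _ (Subset.refl _) hD'
    simp only [mem_insert, mem_singleton] at haD
    intro h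
    rcases haD with h' | h' <;> rw [← h'] at h <;> rcases h with ⟨h1, h2⟩ | ⟨h1, h2⟩ <;>
      first
        | exact absurd h1 (by decide)
        | exact absurd h2 (by decide)
  · exact no_small F hF x y hxy _ (Subset.refl _) hmem

theorem four_le {C : Finset (Fin 14)} (hC : IsEternal G C) : 4 ≤ C.card := by
  obtain ⟨F, hCF, hF⟩ := hC
  by_contra hlt
  push Not at hlt
  interval_cases hc : C.card
  · rw [card_eq_zero] at hc
    subst hc
    exact no_small F hF 0 0 (by decide) _ (by simp) hCF
  · rw [card_eq_one] at hc
    obtain ⟨a, rfl⟩ := hc
    exact no_small F hF a a (by omega) _ (by simp) hCF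
  · rw [card_eq_two] at hc
    obtain ⟨a, b, hab, rfl⟩ := hc
    exact no_pair F hF a b hab hCF
  · rw [card_eq_three] at hc
    obtain ⟨a, b, c, h1, h2, h3, rfl⟩ := hc
    exact no_triple F hF _ a b c h1 h2 h3 rfl hCF

theorem four_le_number : 4 ≤ eternalNumber G := by
  refine le_csInf ?_ ?_
  · refine ⟨_, Finset.univ, rfl, {Finset.univ}, rfl, ?_⟩
    rintro D rfl a
    refine ⟨Finset.univ, rfl, ⟨id, fun v _ => Or.inl rfl, fun _ _ _ _ h => h, ?_⟩, mem_univ a⟩
    simp
  · rintro k ⟨C, rfl, hC⟩
    exact four_le hC

/-- There is a graph on 14 vertices that is not defeated in 14 attacks: its m-eternal domination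
number is at least 4, and some configuration of 3 guards survives the first 14 attacks. -/
theorem result : ∃ G : SimpleGraph (Fin 14), 4 ≤ eternalNumber G ∧
    (∃ C : Finset (Fin 14), C.card = 3 ∧ ¬ AttackerWins G 14 C) ∧ ¬ DefeatedIn G 14 := by
  have h3 : ({0, 2, 3} : Finset (Fin 14)).card = 3 := by decide
  have hs : ¬ AttackerWins G 14 {0, 2, 3} :=
    survive 14 0 2 3 (by decide) (by decide) (by decide) (by decide +kernel)
  refine ⟨G, four_le_number, ⟨_, h3, hs⟩, fun h => hs (h _ ?_)⟩
  have := four_le_number
  rw [h3]
  omega

end Pool.Agent.Results.MP_18a4fa_co.LongGame
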